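import Pool.Agent.R342.GP.Malg
import Pool.Agent.R342.GP.CoreC
import Pool.Agent.R342.GP.Fin
import Pool.Agent.R342.GP.KL
import Pool.Agent.R342.GP.AVG
import Pool.Agent.R342.GP.PSI
import Pool.Agent.R342.GP.CONV
import Pool.Agent.R342.GP.INEQ
import Pool.Agent.R342.GP.EXT

/-!
# The (positive) Grothendieck property and homomorphisms into measure algebras

MP_955413_lc, Q1 and Q2, positive answer: if `𝔸` is a Boolean algebra with the Grothendieck
property, or only the positive Grothendieck property, then every pointwise algebraically convergent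
sequence of homomorphisms of `𝔸` into the measure algebra of a probability space converges
uniformly.

Proof.  Let `φ_n → φ` pointwise algebraically but not uniformly: there are `ε > 0` and `a_n ∈ 𝔸`
with `d(φ_n(a_n), φ(a_n)) > ε` for infinitely many `n`.  Represent the values on the `a_i` by
measurable sets; this gives measurable maps `f_n, f : X → 2^ω` with `f_n → f` almost everywhere, and
`f_n(x) ≠ f(x)` for infinitely many `n` for all `x` in a set `E` with `μ(E) ≥ ε`.  For `x ∈ E` the
set `{f_n(x) : n ≥ j} \ {f(x)}` is infinite, so a sufficiently sparse random clopen set `B_j`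
contains `f(x)` with small probability only, but contains `f_n(x)` for some `n ≥ j` with probability
close to `1`.  So there are `b_j ∈ 𝔸` and `E₁ ⊆ E` with `μ(E₁) > 0` such that each `x ∈ E₁` is
outside all `φ(b_j)` and for each `j` inside `φ_n(b_j)` for some `n = N_j(x) ≥ j`.  The measures
`α_j(a) = μ{x ∈ E₁ : x ∈ φ_{N_j(x)}(a)}` are non-negative and converge pointwise to
`α(a) = μ(E₁ ∩ φ(a))`, so weakly by the positive Grothendieck property.  But the functional
`λ ↦ lim_J λ(b_0 ∨ … ∨ b_J)` has the value `μ(E₁)` at every `α_j` and `0` at `α`, a contradiction.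
-/

set_option autoImplicit false

namespace Pool.Agent.Results.MP_955413_lc.GrothendieckUniform

open MeasureTheory Filter Topology Set TopologicalSpace Pool.Agent.R342.GP

universe u v w

/-- `C(K)` has the Grothendieck property: every weak* convergent sequence in its dual converges
weakly. -/
def Grothendieck (K : Type u) [TopologicalSpace K] [CompactSpace K] : Prop :=
  ∀ (L : ℕ → StrongDual ℝ C(K, ℝ)) (L₀ : StrongDual ℝ C(K, ℝ)),
    (∀ h, Tendsto (fun n => L n h) atTop (𝓝 (L₀ h))) →
    ∀ Ψ : StrongDual ℝ (StrongDual ℝ C(K, ℝ)), Tendsto (fun n => Ψ (L n)) atTop (𝓝 (Ψ L₀))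

/-- Q1 and Q2.  `K` is the Stone space of the Boolean algebra `𝔸`; `X` with the probability measure
`μ` is arbitrary (for instance `2^κ` with the Borel sets and the product measure), and `MAlg μ` is
its measure algebra. -/
theorem result :
    ∀ (𝔸 : Type w) [BooleanAlgebra 𝔸]
      (K : Type u) [TopologicalSpace K] [CompactSpace K] [T2Space K] [TotallyDisconnectedSpace K]
      (_ : 𝔸 ≃o Clopens K) (_ : Grothendieck K ∨ PosGrothendieck K)
      (X : Type v) [MeasurableSpace X] (μ : Measure X) [IsProbabilityMeasure μ]
      (φ : ℕ → BoundedLatticeHom 𝔸 (MAlg μ)) (φ₀ : BoundedLatticeHom 𝔸 (MAlg μ)),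
      PtAlgConv φ φ₀ → UnifConv φ φ₀ := by
  intro 𝔸 _ K _ _ _ _ e hG X _ μ _ φ φ₀ h
  have hpos : PosGrothendieck K := by
    rcases hG with hG | hG
    · exact fun L L₀ _ hL Ψ => hG L L₀ hL Ψ
    · exact hG
  exact fin (core (Pool.Agent.R342.GP.ext ineq) conv psi (kl avg)) 𝔸 K e hpos X μ φ φ₀ h

end Pool.Agent.Results.MP_955413_lc.GrothendieckUniform
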